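import Pool.Agent.Lib_helper75.CF.Rel

/-!
# The index form and the four-cycle
-/

set_option autoImplicit false

namespace Pool.Agent.CF

open Polynomial

section
variable {R : Type*} [CommRing R] (b : Module.Basis (Fin 3) ℤ R)

/-- the element `x ω + y θ` -/
noncomputable def el (x y : ℤ) : R := (x : R) * b 1 + (y : R) * b 2

/-- the coefficient of `θ` of the product -/
noncomputable def kq (α β : R) : ℤ := b.repr (α * β) 2

/-- the coefficient of `ω` of the product -/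
noncomputable def kp (α β : R) : ℤ := b.repr (α * β) 1

/-- the index form -/
noncomputable def Phi (x y : ℤ) : ℤ :=
  kq b (b 1) (b 1) * x ^ 3 + (2 * kq b (b 1) (b 2) - kp b (b 1) (b 1)) * x ^ 2 * y +
    (kq b (b 2) (b 2) - 2 * kp b (b 1) (b 2)) * x * y ^ 2 - kp b (b 2) (b 2) * y ^ 3

variable {b}

theorem decomp (hb : b 0 = 1) (β : R) :
    β = ((b.repr β 0 : ℤ) : R) + ((b.repr β 1 : ℤ) : R) * b 1 + ((b.repr β 2 : ℤ) : R) * b 2 := by
  conv_lhs => rw [← b.sum_repr β]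
  rw [Fin.sum_univ_three, hb]
  simp [zsmul_eq_mul]

theorem repr_lin (hb : b 0 = 1) (c x y : ℤ) :
    b.repr ((c : R) + (x : R) * b 1 + (y : R) * b 2) = Finsupp.equivFunOnFinite.symm ![c, x, y] := by
  have h : (c : R) + (x : R) * b 1 + (y : R) * b 2 = c • b 0 + x • b 1 + y • b 2 := by
    rw [hb]
    simp [zsmul_eq_mul]
  rw [h, map_add, map_add, map_zsmul, map_zsmul, map_zsmul, b.repr_self, b.repr_self,
    b.repr_self]
  ext i
  fin_cases i <;> simp

theorem repr_lin0 (hb : b 0 = 1) (c x y : ℤ) :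
    b.repr ((c : R) + (x : R) * b 1 + (y : R) * b 2) 0 = c := by
  rw [repr_lin hb]
  rfl

theorem repr_lin1 (hb : b 0 = 1) (c x y : ℤ) :
    b.repr ((c : R) + (x : R) * b 1 + (y : R) * b 2) 1 = x := by
  rw [repr_lin hb]
  rfl

theorem repr_lin2 (hb : b 0 = 1) (c x y : ℤ) :
    b.repr ((c : R) + (x : R) * b 1 + (y : R) * b 2) 2 = y := by
  rw [repr_lin hb]
  rfl

/-- the index form is the coefficient of the companion in the square -/
theorem Phi_eq (x y : ℤ) :
    Phi b x y = x * b.repr (el b x y ^ 2) 2 - y * b.repr (el b x y ^ 2) 1 := by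
  have h : el b x y ^ 2 = (x ^ 2) • (b 1 * b 1) + (2 * x * y) • (b 1 * b 2) +
      (y ^ 2) • (b 2 * b 2) := by
    unfold el
    simp only [zsmul_eq_mul]
    push_cast
    ring
  rw [h, map_add, map_add, map_zsmul, map_zsmul, map_zsmul]
  simp only [Finsupp.coe_add, Finsupp.coe_smul, Pi.add_apply, Pi.smul_apply, smul_eq_mul]
  unfold Phi kq kp
  ring

/-- the coefficient of the companion -/
noncomputable def Vc (b : Module.Basis (Fin 3) ℤ R) (x y : ℤ) (β : R) : ℤ :=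
  x * b.repr β 2 - y * b.repr β 1

/-- the coefficient of `g` -/
noncomputable def Uc (b : Module.Basis (Fin 3) ℤ R) (z w : ℤ) (β : R) : ℤ :=
  w * b.repr β 1 - z * b.repr β 2

theorem decomp2 (hb : b 0 = 1) {x y z w : ℤ} (hd : x * w - y * z = 1) (β : R) :
    β = ((Uc b z w β : ℤ) : R) * el b x y + ((Vc b x y β : ℤ) : R) * el b z w +
      ((b.repr β 0 : ℤ) : R) := by
  have h := decomp hb β
  have hd' : (x : R) * w - y * z = 1 := by
    have h1 := congrArg (fun n : ℤ => (n : R)) hd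
    push_cast at h1
    exact h1
  unfold Uc Vc el
  push_cast
  conv_lhs => rw [h]
  linear_combination -(((b.repr β 1 : ℤ) : R) * b 1 + ((b.repr β 2 : ℤ) : R) * b 2) * hd'

theorem Vc_lin (hb : b 0 = 1) {x y z w : ℤ} (hd : x * w - y * z = 1) (k l c : ℤ) :
    Vc b x y ((k : R) * el b x y + (l : R) * el b z w + (c : R)) = l := by
  have h : (k : R) * el b x y + (l : R) * el b z w + (c : R) =
      (c : R) + ((k * x + l * z : ℤ) : R) * b 1 + ((k * y + l * w : ℤ) : R) * b 2 := by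
    unfold el
    push_cast
    ring
  unfold Vc
  rw [h, repr_lin1 hb, repr_lin2 hb]
  linear_combination l * hd

/-- the identity behind the relation -/
theorem struct (hb : b 0 = 1) {x y z w : ℤ} (hd : x * w - y * z = 1) :
    ∃ a e r : ℤ, el b x y ^ 2 = (a : R) * el b x y + (Phi b x y : R) * el b z w + (e : R) ∧
      Phi b x y ∣ r ^ 2 - a * r - e := by
  obtain ⟨g, hg⟩ : ∃ g : R, g = el b x y := ⟨_, rfl⟩
  obtain ⟨v, hv⟩ : ∃ v : R, v = el b z w := ⟨_, rfl⟩
  have hI : Vc b x y (g ^ 2) = Phi b x y := by rw [Phi_eq, hg]; rfl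
  have h1 := decomp2 hb hd (g ^ 2)
  have h2 := decomp2 hb hd (g * v)
  have h3 := decomp2 hb hd (v ^ 2)
  rw [hI] at h1
  rw [← hg, ← hv] at h1 h2 h3
  obtain ⟨a, ha⟩ : ∃ a : ℤ, a = Uc b z w (g ^ 2) := ⟨_, rfl⟩
  obtain ⟨e, he⟩ : ∃ e : ℤ, e = b.repr (g ^ 2) 0 := ⟨_, rfl⟩
  obtain ⟨a', ha'⟩ : ∃ a' : ℤ, a' = Uc b z w (g * v) := ⟨_, rfl⟩
  obtain ⟨r, hr⟩ : ∃ r : ℤ, r = Vc b x y (g * v) := ⟨_, rfl⟩
  obtain ⟨e', he'⟩ : ∃ e' : ℤ, e' = b.repr (g * v) 0 := ⟨_, rfl⟩
  obtain ⟨b', hb'⟩ : ∃ b' : ℤ, b' = Uc b z w (v ^ 2) := ⟨_, rfl⟩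
  obtain ⟨c', hc'⟩ : ∃ c' : ℤ, c' = Vc b x y (v ^ 2) := ⟨_, rfl⟩
  obtain ⟨e'', he''⟩ : ∃ e'' : ℤ, e'' = b.repr (v ^ 2) 0 := ⟨_, rfl⟩
  obtain ⟨I, hII⟩ : ∃ I : ℤ, I = Phi b x y := ⟨_, rfl⟩
  rw [← ha, ← he, ← hII] at h1
  rw [← ha', ← hr, ← he'] at h2
  rw [← hb', ← hc', ← he''] at h3
  refine ⟨a, e, r, ?_, ?_⟩
  · rw [← hg, ← hv, ← hII]
    exact h1
  · rw [← hII]
    have k1 : g * (g * v) = ((a' * a + r * a' + e' : ℤ) : R) * g +
        ((a' * I + r ^ 2 : ℤ) : R) * v + ((a' * e + r * e' : ℤ) : R) := by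
      have : g * (g * v) = (a' : R) * g ^ 2 + (r : R) * (g * v) + (e' : R) * g := by
        conv_lhs => rw [h2]
        ring
      rw [this, h1, h2]
      push_cast
      ring
    have k2 : g * (g * v) = ((a * a' + I * b' : ℤ) : R) * g +
        ((a * r + I * c' + e : ℤ) : R) * v + ((a * e' + I * e'' : ℤ) : R) := by
      have : g * (g * v) = (a : R) * (g * v) + (I : R) * v ^ 2 + (e : R) * v := by
        have : g * (g * v) = g ^ 2 * v := by ring
        rw [this, h1]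
        ring
      rw [this, h2, h3]
      push_cast
      ring
    have k3 := Vc_lin (b := b) hb hd (a' * a + r * a' + e') (a' * I + r ^ 2) (a' * e + r * e')
    have k4 := Vc_lin (b := b) hb hd (a * a' + I * b') (a * r + I * c' + e) (a * e' + I * e'')
    rw [← hg, ← hv] at k3 k4
    rw [← k1] at k3
    rw [← k2] at k4
    have k5 : a' * I + r ^ 2 = a * r + I * c' + e := k3.symm.trans k4
    exact ⟨c' - a', by linear_combination k5⟩

end

/-! ### the four-cycle -/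

section
variable {R : Type*} [CommRing R] {b : Module.Basis (Fin 3) ℤ R}

theorem el_add (x y z w : ℤ) : el b (x + z) (y + w) = el b x y + el b z w := by
  unfold el
  push_cast
  ring

/-- `u = x ω + y θ`, `v = z ω + w θ`; at least one of the six elements is not bad -/
theorem six (hb : b 0 = 1) {x y z w : ℤ} {p : ℕ} (hp : p.Prime) (hd : x * w - y * z = 1)
    (hpos1 : 0 < Phi b (x + z) (y + w)) (hpos2 : 0 < Phi b (x + p * z) (y + p * w))
    (hdvd : (p : ℤ) ∣ Phi b (x + p * z) (y + p * w)) {s₁ s₂ s₃ s₄ s₅ s₆ : ℤ}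
    (h1 : Bad (el b (x + z) (y + w)) s₁) (h2 : Bad (-el b (x + z) (y + w)) s₂)
    (h3 : Bad (el b (x + p * z) (y + p * w)) s₃) (h4 : Bad (-el b (x + p * z) (y + p * w)) s₄)
    (h5 : Bad (el b z w) s₅) (h6 : Bad (-el b x y) s₆) (hs : s₅ ≠ 0) : False := by
  obtain ⟨u, hu⟩ : ∃ u : R, u = el b x y := ⟨_, rfl⟩
  obtain ⟨v, hv⟩ : ∃ v : R, v = el b z w := ⟨_, rfl⟩
  have hg1 : el b (x + z) (y + w) = u + v := by rw [el_add, hu, hv]
  have hg2 : el b (x + p * z) (y + p * w) = u + (p : R) * v := by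
    rw [hu, hv]
    unfold el
    push_cast
    ring
  -- the element u + v
  have hd1 : (x + z) * w - (y + w) * z = 1 := by linear_combination hd
  obtain ⟨a, e, r, q1, q2⟩ := struct hb hd1
  obtain ⟨m, hm⟩ : ∃ m : ℕ, (m : ℤ) = Phi b (x + z) (y + w) :=
    ⟨(Phi b (x + z) (y + w)).toNat, Int.toNat_of_nonneg hpos1.le⟩
  have hm0 : 0 < m := by
    have : (0 : ℤ) < m := by rw [hm]; exact hpos1
    exact_mod_cast this
  rw [← hm] at q1 q2
  rw [hg1, ← hv] at q1
  have r1 := rel b (g := u + v) (t := v) (A := a) (E := e) (r := r) hm0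
    (by push_cast at q1; exact q1) q2 (hg1 ▸ h1) (hg1 ▸ h2) (hv ▸ h5)
  have r2 := rel b (g := u + v) (t := -u) (A := a + m) (E := e) (r := r) hm0
    (by push_cast at q1 ⊢; linear_combination q1)
    (by
      obtain ⟨k, hk⟩ := q2
      exact ⟨k - r, by linear_combination hk⟩) (hg1 ▸ h1) (hg1 ▸ h2) (hu ▸ h6)
  -- the element u + p v
  have hd2 : (x + p * z) * w - (y + p * w) * z = 1 := by linear_combination hd
  obtain ⟨a', e', r', q3, q4⟩ := struct hb hd2
  obtain ⟨k, hk⟩ := hdvd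
  have hk0 : 0 < k := by
    have hp0 : (0 : ℤ) < p := by exact_mod_cast hp.pos
    rw [hk] at hpos2
    exact (mul_pos_iff_of_pos_left hp0).mp hpos2
  obtain ⟨n, hn⟩ : ∃ n : ℕ, (n : ℤ) = k := ⟨k.toNat, Int.toNat_of_nonneg hk0.le⟩
  have hn0 : 0 < n := by
    have : (0 : ℤ) < n := by rw [hn]; exact hk0
    exact_mod_cast this
  rw [← hn] at hk
  rw [hk] at q3 q4
  rw [hg2, ← hv] at q3
  have r3 := rel b (g := u + (p : R) * v) (t := v) (A := a') (E := e') (r := r') (m := p * n)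
    (Nat.mul_pos hp.pos hn0) (by push_cast at q3 ⊢; exact q3) (by push_cast; exact q4)
    (hg2 ▸ h3) (hg2 ▸ h4) (hv ▸ h5)
  have r4 := rel b (g := u + (p : R) * v) (t := -u) (A := a' + n) (E := e') (r := r') (m := n)
    hn0 (by push_cast at q3 ⊢; linear_combination q3)
    (by
      obtain ⟨l, hl⟩ := q4
      exact ⟨p * l - r', by linear_combination hl⟩) (hg2 ▸ h3) (hg2 ▸ h4) (hu ▸ h6)
  push_cast at r3
  rw [liou_mul, liou_prime hp] at r3
  have hmn : liouville (m : ℤ) ≠ 0 := by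
    rcases liou_ne (a := (m : ℤ)) (by exact_mod_cast hm0.ne') with h | h <;> rw [h] <;> norm_num
  have hnn : liouville (n : ℤ) ≠ 0 := by
    rcases liou_ne (a := (n : ℤ)) (by exact_mod_cast hn0.ne') with h | h <;> rw [h] <;> norm_num
  have t1 : s₅ = s₆ := by
    have : liouville (m : ℤ) * (s₅ - s₆) = 0 := by linear_combination r2 - r1
    rcases mul_eq_zero.mp this with h | h
    · exact absurd h hmn
    · linarith
  have t2 : s₆ = -s₅ := by
    have : liouville (n : ℤ) * (s₆ + s₅) = 0 := by linear_combination r3 - r4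
    rcases mul_eq_zero.mp this with h | h
    · exact absurd h hnn
    · linarith
  apply hs
  linarith

end

end Pool.Agent.CF
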