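import Pool.Agent.Lib_helper75.CF.Defs

/-!
# Counting coprime pairs
-/

set_option autoImplicit false

namespace Pool.Agent.CF

/-- the coprime pairs -/
def UU (p M : ℕ) : Finset (ℕ × ℕ) :=
  (Finset.range M ×ˢ Finset.Icc 1 M).filter (fun q => Nat.Coprime (1 + p * q.1) (p * q.2))

theorem count_A {p q M : ℕ} (hq : q.Prime) :
    ((Finset.range M).filter (fun i => q ∣ 1 + p * i)).card ≤ M / q + 1 := by
  have h : ((Finset.range M).filter (fun i => q ∣ 1 + p * i)).card ≤
      (Finset.range (M / q + 1)).card := by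
    apply Finset.card_le_card_of_injOn (fun i => i / q)
    · intro i hi
      rw [Finset.mem_coe, Finset.mem_filter, Finset.mem_range] at hi
      rw [Finset.mem_coe, Finset.mem_range]
      exact Nat.lt_succ_of_le (Nat.div_le_div_right hi.1.le)
    · intro i hi j hj hij
      rw [Finset.mem_coe, Finset.mem_filter] at hi hj
      simp only at hij
      have hqp : ¬ q ∣ p := by
        intro h
        have h1 : q ∣ 1 := (Nat.dvd_add_left (h.mul_right i)).mp hi.2
        exact hq.one_lt.ne' (Nat.dvd_one.mp h1)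
      have hmod : i % q = j % q := by
        have h1 : (q : ℤ) ∣ (1 + p * i) - (1 + p * j) := by
          apply dvd_sub
          · exact_mod_cast hi.2
          · exact_mod_cast hj.2
        have h2 : (q : ℤ) ∣ p * ((i : ℤ) - j) := by
          have e : ((1 : ℤ) + p * i) - (1 + p * j) = p * ((i : ℤ) - j) := by ring
          rwa [e] at h1
        have h3 : (q : ℤ) ∣ (i : ℤ) - j := by
          rcases (Nat.prime_iff_prime_int.mp hq).dvd_or_dvd h2 with h4 | h4
          · exact absurd (by exact_mod_cast h4) hqp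
          · exact h4
        have h4 : (j : ℤ) ≡ i [ZMOD q] := Int.modEq_iff_dvd.mpr h3
        exact (Int.natCast_modEq_iff.mp h4).symm
      calc i = q * (i / q) + i % q := (Nat.div_add_mod i q).symm
        _ = q * (j / q) + j % q := by rw [hij, hmod]
        _ = j := Nat.div_add_mod j q
  rwa [Finset.card_range] at h

theorem count_B {q M : ℕ} (hq : q.Prime) :
    ((Finset.Icc 1 M).filter (fun j => q ∣ j)).card ≤ M / q := by
  have h : ((Finset.Icc 1 M).filter (fun j => q ∣ j)).card ≤ (Finset.Icc 1 (M / q)).card := by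
    apply Finset.card_le_card_of_injOn (fun i => i / q)
    · intro i hi
      rw [Finset.mem_coe, Finset.mem_filter, Finset.mem_Icc] at hi
      rw [Finset.mem_coe, Finset.mem_Icc]
      refine ⟨?_, Nat.div_le_div_right hi.1.2⟩
      exact Nat.div_pos (Nat.le_of_dvd (by omega) hi.2) hq.pos
    · intro i hi j hj hij
      rw [Finset.mem_coe, Finset.mem_filter] at hi hj
      simp only at hij
      rw [← Nat.mul_div_cancel' hi.2, ← Nat.mul_div_cancel' hj.2, hij]
  rwa [Nat.card_Icc, Nat.add_sub_cancel] at h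

theorem sum_sq_le {M : ℕ} (hM : 2 ≤ M) :
    ∑ q ∈ Finset.Icc 2 M, 1 / (q : ℝ) ^ 2 ≤ 3 / 4 - 1 / (M : ℝ) := by
  induction M, hM using Nat.le_induction with
  | base => norm_num
  | succ M hM ih =>
    rw [Finset.sum_Icc_succ_top (by omega)]
    have hM0 : (0 : ℝ) < M := by exact_mod_cast (by omega : 0 < M)
    have h1 : 1 / ((M + 1 : ℕ) : ℝ) ^ 2 ≤ 1 / M - 1 / ((M + 1 : ℕ) : ℝ) := by
      push_cast
      have h2 : 1 / (M : ℝ) - 1 / ((M : ℝ) + 1) = 1 / ((M : ℝ) * (M + 1)) := by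
        field_simp
        ring
      rw [h2]
      apply one_div_le_one_div_of_le (by positivity)
      nlinarith
    linarith

theorem sum_inv_le (M : ℕ) : ∑ q ∈ Finset.Icc 2 M, 1 / (q : ℝ) ≤ M / 16 + 8 := by
  have h1 : ∀ q ∈ Finset.Icc 2 M, 1 / (q : ℝ) ≤ 1 / 16 + (if q < 16 then (1 / 2 : ℝ) else 0) := by
    intro q hq
    rw [Finset.mem_Icc] at hq
    have hq0 : (2 : ℝ) ≤ q := by exact_mod_cast hq.1
    split_ifs with h
    · have : 1 / (q : ℝ) ≤ 1 / 2 := one_div_le_one_div_of_le (by norm_num) hq0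
      linarith
    · have h16 : (16 : ℝ) ≤ q := by exact_mod_cast (by omega : 16 ≤ q)
      have : 1 / (q : ℝ) ≤ 1 / 16 := one_div_le_one_div_of_le (by norm_num) h16
      linarith
  refine (Finset.sum_le_sum h1).trans ?_
  rw [Finset.sum_add_distrib, Finset.sum_const, nsmul_eq_mul]
  have h2 : ((Finset.Icc 2 M).card : ℝ) ≤ M := by
    have : (Finset.Icc 2 M).card ≤ M := by rw [Nat.card_Icc]; omega
    exact_mod_cast this
  have h3 : ∑ q ∈ Finset.Icc 2 M, (if q < 16 then (1 / 2 : ℝ) else 0) ≤ 8 := by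
    rw [← Finset.sum_filter, Finset.sum_const, nsmul_eq_mul]
    have h4 : ((Finset.Icc 2 M).filter (fun q => q < 16)).card ≤ 16 := by
      have : (Finset.Icc 2 M).filter (fun q => q < 16) ⊆ Finset.range 16 := by
        intro q hq
        rw [Finset.mem_filter] at hq
        exact Finset.mem_range.mpr hq.2
      exact (Finset.card_le_card this).trans (by simp)
    have h5 : (((Finset.Icc 2 M).filter (fun q => q < 16)).card : ℝ) ≤ 16 := by exact_mod_cast h4
    linarith
  linarith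

/-- a positive proportion of the pairs is coprime -/
theorem card_UU {p M : ℕ} (hM : 128 ≤ M) : (M : ℝ) ^ 2 / 8 ≤ (UU p M).card := by
  obtain ⟨T, hT⟩ : ∃ T : Finset (ℕ × ℕ), T = Finset.range M ×ˢ Finset.Icc 1 M := ⟨_, rfl⟩
  have hTc : T.card = M * M := by
    rw [hT, Finset.card_product, Finset.card_range, Nat.card_Icc, Nat.add_sub_cancel]
  obtain ⟨Q, hQ⟩ : ∃ Q : Finset ℕ, Q = (Finset.Icc 2 M).filter Nat.Prime := ⟨_, rfl⟩
  have hcov : T ⊆ UU p M ∪ Q.biUnion (fun q =>
      ((Finset.range M).filter (fun i => q ∣ 1 + p * i)) ×ˢ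
        ((Finset.Icc 1 M).filter (fun j => q ∣ j))) := by
    rintro ⟨i, j⟩ hij
    rw [hT, Finset.mem_product, Finset.mem_range, Finset.mem_Icc] at hij
    rw [Finset.mem_union]
    by_cases hc : Nat.Coprime (1 + p * i) (p * j)
    · left
      unfold UU
      rw [Finset.mem_filter, Finset.mem_product, Finset.mem_range, Finset.mem_Icc]
      exact ⟨hij, hc⟩
    · right
      obtain ⟨q, hq, h1, h2⟩ := Nat.Prime.not_coprime_iff_dvd.mp hc
      have hqp : ¬ q ∣ p := by
        intro h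
        have h3 : q ∣ 1 := (Nat.dvd_add_left (h.mul_right i)).mp h1
        exact hq.one_lt.ne' (Nat.dvd_one.mp h3)
      have h3 : q ∣ j := ((Nat.Prime.dvd_mul hq).mp h2).resolve_left hqp
      simp only at hij
      have h4 : q ≤ M := (Nat.le_of_dvd (by omega) h3).trans hij.2.2
      rw [Finset.mem_biUnion]
      refine ⟨q, ?_, ?_⟩
      · rw [hQ, Finset.mem_filter, Finset.mem_Icc]
        exact ⟨⟨hq.two_le, h4⟩, hq⟩
      · rw [Finset.mem_product, Finset.mem_filter, Finset.mem_filter, Finset.mem_range,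
          Finset.mem_Icc]
        exact ⟨⟨hij.1, h1⟩, ⟨hij.2, h3⟩⟩
  have hcard := (Finset.card_le_card hcov).trans ((Finset.card_union_le _ _).trans
    (Nat.add_le_add_left Finset.card_biUnion_le _))
  rw [hTc] at hcard
  have hcard' : (M : ℝ) * M ≤ (UU p M).card + ∑ q ∈ Q,
      ((((Finset.range M).filter (fun i => q ∣ 1 + p * i)) ×ˢ
        ((Finset.Icc 1 M).filter (fun j => q ∣ j))).card : ℝ) := by
    exact_mod_cast hcard
  have hM0 : (0 : ℝ) < M := by exact_mod_cast (by omega : 0 < M)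
  have hterm : ∀ q ∈ Q, ((((Finset.range M).filter (fun i => q ∣ 1 + p * i)) ×ˢ
        ((Finset.Icc 1 M).filter (fun j => q ∣ j))).card : ℝ) ≤
      (M : ℝ) ^ 2 * (1 / (q : ℝ) ^ 2) + M * (1 / (q : ℝ)) := by
    intro q hq
    rw [hQ, Finset.mem_filter] at hq
    rw [Finset.card_product]
    push_cast
    have h1 : (((Finset.range M).filter (fun i => q ∣ 1 + p * i)).card : ℝ) ≤ M / q + 1 := by
      have h2 := count_A (p := p) (M := M) hq.2
      have h3 : ((M / q : ℕ) : ℝ) ≤ M / q := Nat.cast_div_le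
      have h4 : (((Finset.range M).filter (fun i => q ∣ 1 + p * i)).card : ℝ) ≤
          ((M / q + 1 : ℕ) : ℝ) := by exact_mod_cast h2
      push_cast at h4
      linarith
    have h5 : (((Finset.Icc 1 M).filter (fun j => q ∣ j)).card : ℝ) ≤ M / q := by
      have h2 := count_B (M := M) hq.2
      have h3 : ((M / q : ℕ) : ℝ) ≤ M / q := Nat.cast_div_le
      have h4 : (((Finset.Icc 1 M).filter (fun j => q ∣ j)).card : ℝ) ≤
          ((M / q : ℕ) : ℝ) := by exact_mod_cast h2
      linarith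
    have hq0 : (0 : ℝ) < q := by exact_mod_cast hq.2.pos
    calc _ ≤ ((M : ℝ) / q + 1) * (M / q) :=
          mul_le_mul h1 h5 (by positivity) (by positivity)
      _ = _ := by
          field_simp
  have hsub : ∑ q ∈ Q, ((M : ℝ) ^ 2 * (1 / (q : ℝ) ^ 2) + M * (1 / (q : ℝ))) ≤
      ∑ q ∈ Finset.Icc 2 M, ((M : ℝ) ^ 2 * (1 / (q : ℝ) ^ 2) + M * (1 / (q : ℝ))) := by
    apply Finset.sum_le_sum_of_subset_of_nonneg
    · rw [hQ]
      exact Finset.filter_subset _ _
    · intro q _ _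
      positivity
  have hdist : ∑ q ∈ Finset.Icc 2 M, ((M : ℝ) ^ 2 * (1 / (q : ℝ) ^ 2) + M * (1 / (q : ℝ))) =
      (M : ℝ) ^ 2 * ∑ q ∈ Finset.Icc 2 M, 1 / (q : ℝ) ^ 2 +
        M * ∑ q ∈ Finset.Icc 2 M, 1 / (q : ℝ) := by
    rw [Finset.sum_add_distrib, ← Finset.mul_sum, ← Finset.mul_sum]
  rw [hdist] at hsub
  have h6 := sum_sq_le (M := M) (by omega)
  have h7 := sum_inv_le M
  have hM128 : (128 : ℝ) ≤ M := by exact_mod_cast hM
  have h8 : (M : ℝ) ^ 2 * ∑ q ∈ Finset.Icc 2 M, 1 / (q : ℝ) ^ 2 ≤ (M : ℝ) ^ 2 * (3 / 4) := by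
    apply mul_le_mul_of_nonneg_left _ (by positivity)
    have : 0 < 1 / (M : ℝ) := by positivity
    linarith
  have h9 : (M : ℝ) * ∑ q ∈ Finset.Icc 2 M, 1 / (q : ℝ) ≤ M * (M / 8) := by
    apply mul_le_mul_of_nonneg_left _ hM0.le
    linarith
  have h10 := Finset.sum_le_sum hterm
  nlinarith

/-- the companion of a coprime pair -/
theorem companion {x y : ℤ} (hx : 1 ≤ x) (hy : 1 ≤ y) (h : IsCoprime x y) :
    ∃ z w : ℤ, x * w - y * z = 1 ∧ x ≤ z ∧ z < 2 * x ∧ 1 ≤ w ∧ w ≤ 2 * y := by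
  obtain ⟨A, B, hAB⟩ := h
  -- A x + B y = 1; z₀ = -B, w₀ = A
  obtain ⟨k, hk⟩ : ∃ k : ℤ, k = (-B) / x := ⟨_, rfl⟩
  have h1 := Int.emod_add_mul_ediv (-B) x
  have h2 := Int.emod_nonneg (-B) (by omega : x ≠ 0)
  have h3 := Int.emod_lt_of_pos (-B) (by omega : 0 < x)
  rw [← hk] at h1
  obtain ⟨ρ, hρ⟩ : ∃ ρ : ℤ, ρ = (-B) % x := ⟨_, rfl⟩
  rw [← hρ] at h1 h2 h3
  have hd : x * (A - y * k + y) - y * (ρ + x) = 1 := by
    have : ρ = -B - x * k := by linarith
    rw [this]
    linear_combination hAB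
  refine ⟨ρ + x, A - y * k + y, hd, by omega, by omega, ?_, ?_⟩
  · by_contra hcon
    push Not at hcon
    have h4 : A - y * k + y ≤ 0 := by omega
    nlinarith
  · by_contra hcon
    push Not at hcon
    have h4 : 2 * y + 1 ≤ A - y * k + y := by omega
    have h5 : y * (ρ + x) ≤ y * (2 * x - 1) := by
      apply mul_le_mul_of_nonneg_left _ (by omega)
      omega
    nlinarith

end Pool.Agent.CF
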