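import Mathlib

/-!
# The Liouville function on the integers of cubic fields: definitions and the basic relation
-/

set_option autoImplicit false

namespace Pool.Agent.CF

open Polynomial

/-- Liouville's function on the integers: `0` at `0`, otherwise `(-1)^Ω(|m|)` -/
def liouville (m : ℤ) : ℤ :=
  if m = 0 then 0 else (-1) ^ (ArithmeticFunction.cardFactors m.natAbs)

/-- each sign is taken by `λ(f(n))` for at least `δ √N` of the integers `1 ≤ n ≤ N`, for some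
`δ > 0` and arbitrarily large `N` -/
def BothSigns (f : ℤ[X]) : Prop :=
  ∀ s : ℤ, s = 1 ∨ s = -1 → ∃ δ : ℝ, 0 < δ ∧ ∀ N₀ : ℕ, ∃ N : ℕ, N₀ ≤ N ∧
    δ * Real.sqrt N ≤
      (((Finset.Icc 1 N).filter (fun n : ℕ => liouville (f.eval (n : ℤ)) = s)).card : ℝ)

theorem liou_mul (a b : ℤ) : liouville (a * b) = liouville a * liouville b := by
  unfold liouville
  by_cases ha : a = 0
  · simp [ha]
  by_cases hb : b = 0
  · simp [hb]
  rw [if_neg ha, if_neg hb, if_neg (mul_ne_zero ha hb), Int.natAbs_mul,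
    ArithmeticFunction.cardFactors_mul (Int.natAbs_ne_zero.mpr ha) (Int.natAbs_ne_zero.mpr hb),
    pow_add]

theorem liou_one : liouville 1 = 1 := by
  unfold liouville
  simp

theorem liou_pow (a : ℤ) (k : ℕ) : liouville (a ^ k) = liouville a ^ k := by
  induction k with
  | zero => simp [liou_one]
  | succ k ih => rw [pow_succ, pow_succ, liou_mul, ih]

theorem liou_ne {a : ℤ} (ha : a ≠ 0) : liouville a = 1 ∨ liouville a = -1 := by
  unfold liouville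
  rw [if_neg ha]
  exact neg_one_pow_eq_or ℤ _

theorem liou_prime {p : ℕ} (hp : p.Prime) : liouville (p : ℤ) = -1 := by
  unfold liouville
  rw [if_neg (by exact_mod_cast hp.ne_zero), Int.natAbs_natCast,
    ArithmeticFunction.cardFactors_apply_prime hp, pow_one]

theorem liou_cube {a : ℤ} (ha : a ≠ 0) : liouville (a ^ 3) = liouville a := by
  rw [liou_pow]
  rcases liou_ne ha with h | h <;> rw [h] <;> norm_num

/-- `a n = s` up to `o(√N)` exceptions `n ≤ N` -/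
def BadSeq (a : ℕ → ℤ) (s : ℤ) : Prop :=
  ∀ δ : ℝ, 0 < δ → ∃ N₀ : ℕ, ∀ N : ℕ, N₀ ≤ N →
    (((Finset.Icc 1 N).filter (fun n : ℕ => a n ≠ s)).card : ℝ) < δ * Real.sqrt N

theorem bad_count {a : ℕ → ℤ} {s : ℤ} {X : ℕ → ℕ} {S : Finset ℕ} {N : ℕ}
    (h1 : ∀ j ∈ S, 1 ≤ X j ∧ X j ≤ N) (h2 : Set.InjOn X S) :
    (S.filter (fun j => a (X j) ≠ s)).card ≤
      ((Finset.Icc 1 N).filter (fun n : ℕ => a n ≠ s)).card := by
  apply Finset.card_le_card_of_injOn X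
  · intro j hj
    rw [Finset.mem_coe, Finset.mem_filter] at hj
    rw [Finset.mem_coe, Finset.mem_filter, Finset.mem_Icc]
    exact ⟨h1 j hj.1, hj.2⟩
  · intro i hi j hj hij
    rw [Finset.mem_coe, Finset.mem_filter] at hi hj
    exact h2 hi.1 hj.1 hij

/-- three sequences with few exceptions have a common non-exceptional index -/
theorem bad_common {a b c : ℕ → ℤ} {s₁ s₂ s₃ : ℤ} (ha : BadSeq a s₁) (hb : BadSeq b s₂)
    (hc : BadSeq c s₃) {X Y Z : ℕ → ℕ} {C j₀ : ℕ} (hC : 1 ≤ C)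
    (hX : ∀ j, j₀ ≤ j → 1 ≤ X j ∧ X j ≤ C * j) (hY : ∀ j, j₀ ≤ j → 1 ≤ Y j ∧ Y j ≤ C * j)
    (hZ : ∀ j, j₀ ≤ j → 1 ≤ Z j ∧ Z j ≤ C * j ^ 2)
    (iX : Set.InjOn X (Set.Ici j₀)) (iY : Set.InjOn Y (Set.Ici j₀))
    (iZ : Set.InjOn Z (Set.Ici j₀)) :
    ∃ j, j₀ ≤ j ∧ a (X j) = s₁ ∧ b (Y j) = s₂ ∧ c (Z j) = s₃ := by
  have hCr : (1 : ℝ) ≤ C := by exact_mod_cast hC
  obtain ⟨δ, hδ⟩ : ∃ δ : ℝ, δ = 1 / (8 * C) := ⟨_, rfl⟩
  have hδ0 : 0 < δ := by rw [hδ]; positivity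
  obtain ⟨N₁, h1⟩ := ha δ hδ0
  obtain ⟨N₂, h2⟩ := hb δ hδ0
  obtain ⟨N₃, h3⟩ := hc δ hδ0
  obtain ⟨J, hJ⟩ : ∃ J : ℕ, J = j₀ + N₁ + N₂ + N₃ + 1 := ⟨_, rfl⟩
  have hJ1 : 1 ≤ J := by omega
  have hJr : (1 : ℝ) ≤ J := by exact_mod_cast hJ1
  obtain ⟨S, hS⟩ : ∃ S : Finset ℕ, S = Finset.Ico J (2 * J) := ⟨_, rfl⟩
  have hSj : ∀ j ∈ S, j₀ ≤ j ∧ j ≤ 2 * J := by
    intro j hj
    rw [hS, Finset.mem_Ico] at hj
    omega
  have hScard : (S.card : ℝ) = J := by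
    rw [hS, Nat.card_Ico]
    congr 1
    omega
  have hsub : ∀ T : ℕ → ℕ, Set.InjOn T (Set.Ici j₀) → Set.InjOn T (S : Set ℕ) := by
    intro T hT i hi j hj hij
    exact hT (hSj i hi).1 (hSj j hj).1 hij
  have hlin : ∀ T : ℕ → ℕ, (∀ j, j₀ ≤ j → 1 ≤ T j ∧ T j ≤ C * j) →
      ∀ j ∈ S, 1 ≤ T j ∧ T j ≤ 2 * C * J := by
    intro T hT j hj
    obtain ⟨h4, h5⟩ := hSj j hj
    refine ⟨(hT j h4).1, (hT j h4).2.trans ?_⟩
    calc C * j ≤ C * (2 * J) := Nat.mul_le_mul_left C h5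
      _ = 2 * C * J := by ring
  have hquad : ∀ j ∈ S, 1 ≤ Z j ∧ Z j ≤ 4 * C * J ^ 2 := by
    intro j hj
    obtain ⟨h4, h5⟩ := hSj j hj
    refine ⟨(hZ j h4).1, (hZ j h4).2.trans ?_⟩
    calc C * j ^ 2 ≤ C * (2 * J) ^ 2 := Nat.mul_le_mul_left C (Nat.pow_le_pow_left h5 2)
      _ = 4 * C * J ^ 2 := by ring
  have hCJ : J ≤ 2 * C * J := by nlinarith
  have hCJ2 : J ≤ 4 * C * J ^ 2 := by
    have : J ≤ J ^ 2 := Nat.le_self_pow (by norm_num) J
    nlinarith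
  have e1 := h1 (2 * C * J) (by omega)
  have e2 := h2 (2 * C * J) (by omega)
  have e3 := h3 (4 * C * J ^ 2) (by omega)
  have r1 : Real.sqrt ((2 * C * J : ℕ) : ℝ) ≤ 2 * C * J := by
    rw [Real.sqrt_le_left (by positivity)]
    push_cast
    have : (1 : ℝ) ≤ 2 * C * J := by nlinarith
    nlinarith
  have r3 : Real.sqrt ((4 * C * J ^ 2 : ℕ) : ℝ) ≤ 2 * C * J := by
    rw [Real.sqrt_le_left (by positivity)]
    push_cast
    have h6 : (C : ℝ) ≤ C ^ 2 := by nlinarith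
    have h7 : (0 : ℝ) ≤ (J : ℝ) ^ 2 := by positivity
    nlinarith
  have hd : δ * (2 * C * J) = J / 4 := by
    rw [hδ]
    field_simp
    ring
  have f1 := lt_of_lt_of_le e1 (mul_le_mul_of_nonneg_left r1 hδ0.le)
  have f2 := lt_of_lt_of_le e2 (mul_le_mul_of_nonneg_left r1 hδ0.le)
  have f3 := lt_of_lt_of_le e3 (mul_le_mul_of_nonneg_left r3 hδ0.le)
  rw [hd] at f1 f2 f3
  have g1 := bad_count (a := a) (s := s₁) (hlin X hX) (hsub X iX)
  have g2 := bad_count (a := b) (s := s₂) (hlin Y hY) (hsub Y iY)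
  have g3 := bad_count (a := c) (s := s₃) hquad (hsub Z iZ)
  by_contra hcon
  push Not at hcon
  have hcov : S ⊆ (S.filter (fun j => a (X j) ≠ s₁) ∪ S.filter (fun j => b (Y j) ≠ s₂)) ∪
      S.filter (fun j => c (Z j) ≠ s₃) := by
    intro j hj
    rw [Finset.mem_union, Finset.mem_union, Finset.mem_filter, Finset.mem_filter,
      Finset.mem_filter]
    by_cases k1 : a (X j) = s₁
    · by_cases k2 : b (Y j) = s₂
      · exact Or.inr ⟨hj, hcon j (hSj j hj).1 k1 k2⟩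
      · exact Or.inl (Or.inr ⟨hj, k2⟩)
    · exact Or.inl (Or.inl ⟨hj, k1⟩)
  have hcard := (Finset.card_le_card hcov).trans
    ((Finset.card_union_le _ _).trans (Nat.add_le_add_right (Finset.card_union_le _ _) _))
  have hcard' : (S.card : ℝ) ≤ (S.filter (fun j => a (X j) ≠ s₁)).card +
      (S.filter (fun j => b (Y j) ≠ s₂)).card + (S.filter (fun j => c (Z j) ≠ s₃)).card := by
    exact_mod_cast hcard
  have g1' : ((S.filter (fun j => a (X j) ≠ s₁)).card : ℝ) ≤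
      ((Finset.Icc 1 (2 * C * J)).filter (fun n : ℕ => a n ≠ s₁)).card := by exact_mod_cast g1
  have g2' : ((S.filter (fun j => b (Y j) ≠ s₂)).card : ℝ) ≤
      ((Finset.Icc 1 (2 * C * J)).filter (fun n : ℕ => b n ≠ s₂)).card := by exact_mod_cast g2
  have g3' : ((S.filter (fun j => c (Z j) ≠ s₃)).card : ℝ) ≤
      ((Finset.Icc 1 (4 * C * J ^ 2)).filter (fun n : ℕ => c n ≠ s₃)).card := by exact_mod_cast g3
  rw [hScard] at hcard'
  linarith

end Pool.Agent.CF
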