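import Pool.Agent.Lib_helper75.CF.Main

/-!
# A positive proportion of the elements of a cubic order is good
-/

set_option autoImplicit false

namespace Pool.Agent.CF

open Polynomial

section
variable {R : Type*} [CommRing R] [IsDomain R] {b : Module.Basis (Fin 3) ℤ R}

omit [IsDomain R] in
theorem Phi_one_zero : Phi b 1 0 = kq b (b 1) (b 1) := by
  unfold Phi
  ring

omit [IsDomain R] in
theorem dvd_Phi {p : ℕ} {a₁ a₂ c₁ c₂ x y : ℤ} (h1 : (p : ℤ) ∣ Phi b a₁ a₂) (h2 : (p : ℤ) ∣ y) :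
    (p : ℤ) ∣ Phi b (x * a₁ + y * c₁) (x * a₂ + y * c₂) := by
  obtain ⟨k, rfl⟩ := h2
  have hX : x * a₁ + p * k * c₁ ≡ x * a₁ [ZMOD p] :=
    Int.modEq_iff_dvd.mpr ⟨-(k * c₁), by ring⟩
  have hY : x * a₂ + p * k * c₂ ≡ x * a₂ [ZMOD p] :=
    Int.modEq_iff_dvd.mpr ⟨-(k * c₂), by ring⟩
  have h3 : Phi b (x * a₁ + p * k * c₁) (x * a₂ + p * k * c₂) ≡
      Phi b (x * a₁) (x * a₂) [ZMOD p] := by
    unfold Phi
    refine Int.ModEq.sub (Int.ModEq.add (Int.ModEq.add ?_ ?_) ?_) ?_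
    · exact (hX.pow 3).mul_left _
    · exact ((hX.pow 2).mul_left _).mul hY
    · exact (hX.mul_left _).mul (hY.pow 2)
    · exact (hY.pow 3).mul_left _
  have h4 : Phi b (x * a₁) (x * a₂) = x ^ 3 * Phi b a₁ a₂ := by
    unfold Phi
    ring
  rw [h4] at h3
  have h5 : (p : ℤ) ∣ x ^ 3 * Phi b a₁ a₂ := h1.mul_left _
  exact (Int.ModEq.dvd_iff h3).mpr h5

/-- bounds for the six elements -/
theorem six_bound {p : ℕ} {u v : ℤ × ℤ} {L : ℤ} (h1 : 0 ≤ u.1) (h2 : 0 ≤ u.2) (h3 : u.1 ≤ L)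
    (h4 : u.2 ≤ L) (hc : Comp u v) (hp : 1 ≤ (p : ℤ)) (k : Fin 6) :
    |(six_el p u v k).1| ≤ (2 * p + 1) * L ∧ |(six_el p u v k).2| ≤ (2 * p + 1) * L := by
  obtain ⟨x, y⟩ := u
  obtain ⟨z, w⟩ := v
  unfold Comp at hc
  simp only at h1 h2 h3 h4 hc
  obtain ⟨-, a2, a3, a4, a5⟩ := hc
  have hL : 0 ≤ L := h1.trans h3
  have hz : z ≤ 2 * L := by linarith
  have hw : w ≤ 2 * L := by linarith
  have hz0 : 0 ≤ z := by linarith
  have hw0 : 0 ≤ w := by linarith
  have pz : (p : ℤ) * z ≤ p * (2 * L) := mul_le_mul_of_nonneg_left hz (by linarith)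
  have pw : (p : ℤ) * w ≤ p * (2 * L) := mul_le_mul_of_nonneg_left hw (by linarith)
  have pz0 : 0 ≤ (p : ℤ) * z := by positivity
  have pw0 : 0 ≤ (p : ℤ) * w := by positivity
  have pL : L ≤ p * L := by nlinarith
  have e : (2 * (p : ℤ) + 1) * L = p * (2 * L) + L := by ring
  rw [e]
  fin_cases k <;>
    simp only [six_el, Fin.zero_eta, Fin.mk_one, Fin.reduceFinMk, Matrix.cons_val_zero,
      Matrix.cons_val_one, Matrix.cons_val] <;>
    constructor <;> rw [abs_le] <;> constructor <;> linarith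

theorem TT_bound {a₁ a₂ c₁ c₂ B : ℤ} {s : ℤ × ℤ} (h1 : |s.1| ≤ B) (h2 : |s.2| ≤ B) :
    |(TT a₁ a₂ c₁ c₂ s).1| ≤ (|a₁| + |c₁| + |a₂| + |c₂|) * B ∧
    |(TT a₁ a₂ c₁ c₂ s).2| ≤ (|a₁| + |c₁| + |a₂| + |c₂|) * B := by
  have hB : 0 ≤ B := (abs_nonneg _).trans h1
  have b1 := abs_nonneg a₁
  have b2 := abs_nonneg a₂
  have b3 := abs_nonneg c₁
  have b4 := abs_nonneg c₂
  have m1 := mul_le_mul_of_nonneg_right h1 b1
  have m2 := mul_le_mul_of_nonneg_right h2 b3
  have m3 := mul_le_mul_of_nonneg_right h1 b2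
  have m4 := mul_le_mul_of_nonneg_right h2 b4
  have n1 : 0 ≤ B * |a₁| := mul_nonneg hB b1
  have n2 : 0 ≤ B * |c₁| := mul_nonneg hB b3
  have n3 : 0 ≤ B * |a₂| := mul_nonneg hB b2
  have n4 : 0 ≤ B * |c₂| := mul_nonneg hB b4
  unfold TT
  simp only
  constructor
  · calc |s.1 * a₁ + s.2 * c₁| ≤ |s.1 * a₁| + |s.2 * c₁| := abs_add_le _ _
      _ = |s.1| * |a₁| + |s.2| * |c₁| := by rw [abs_mul, abs_mul]
      _ ≤ _ := by nlinarith
  · calc |s.1 * a₂ + s.2 * c₂| ≤ |s.1 * a₂| + |s.2 * c₂| := abs_add_le _ _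
      _ = |s.1| * |a₂| + |s.2| * |c₂| := by rw [abs_mul, abs_mul]
      _ ≤ _ := by nlinarith

open Classical in
/-- a positive proportion of the elements is good -/
theorem main (hb : b 0 = 1) : ∃ c : ℝ, 0 < c ∧ ∃ H₀ : ℕ, ∀ H : ℕ, H₀ ≤ H →
    c * (H : ℝ) ^ 2 ≤ (((Finset.Icc (-(H : ℤ)) H ×ˢ Finset.Icc (-(H : ℤ)) H).filter
      (fun q => Good b q)).card : ℝ) := by
  have hA : kq b (b 1) (b 1) ≠ 0 := by
    rw [← Phi_one_zero]
    exact Phi_ne hb (z := 0) (w := 1) (by norm_num)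
  obtain ⟨a₁, a₂, c₁, c₂, hd, hpos⟩ := cone_pos
    (B := 2 * kq b (b 1) (b 2) - kp b (b 1) (b 1)) (C := kq b (b 2) (b 2) - 2 * kp b (b 1) (b 2))
    (D := -kp b (b 2) (b 2)) hA
  have hPhi : ∀ x y : ℤ, 0 ≤ x → 0 ≤ y → 1 ≤ x + y →
      2 ≤ Phi b (x * a₁ + y * c₁) (x * a₂ + y * c₂) := by
    intro x y hx hy hxy
    have h := hpos x y hx hy hxy
    unfold Phi
    linarith
  -- the prime
  have hP1 := hPhi 1 0 (by norm_num) le_rfl (by norm_num)
  simp only [one_mul, zero_mul, add_zero] at hP1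
  obtain ⟨n, hn⟩ : ∃ n : ℕ, (n : ℤ) = Phi b a₁ a₂ :=
    ⟨(Phi b a₁ a₂).toNat, Int.toNat_of_nonneg (by linarith)⟩
  have hn2 : 2 ≤ n := by
    rw [← hn] at hP1
    exact_mod_cast hP1
  obtain ⟨p, hp, hpn⟩ : ∃ p : ℕ, p.Prime ∧ p ∣ n := Nat.exists_prime_and_dvd (by omega)
  have hpP : (p : ℤ) ∣ Phi b a₁ a₂ := by
    rw [← hn]
    exact_mod_cast hpn
  have hp1 : 1 ≤ (p : ℤ) := by exact_mod_cast hp.one_lt.le
  obtain ⟨K, hK⟩ : ∃ K : ℕ, (K : ℤ) = (|a₁| + |c₁| + |a₂| + |c₂|) * ((2 * p + 1) * p) + 1 := by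
    refine ⟨((|a₁| + |c₁| + |a₂| + |c₂|) * ((2 * p + 1) * p) + 1).toNat,
      Int.toNat_of_nonneg ?_⟩
    positivity
  have hK1 : 1 ≤ K := by
    have : (1 : ℤ) ≤ K := by
      rw [hK]
      have : 0 ≤ (|a₁| + |c₁| + |a₂| + |c₂|) * ((2 * p + 1) * p) := by positivity
      linarith
    exact_mod_cast this
  have hKr : (1 : ℝ) ≤ K := by exact_mod_cast hK1
  refine ⟨1 / (192 * (K : ℝ) ^ 2), by positivity, 128 * K, ?_⟩
  intro H hH
  obtain ⟨M, hM⟩ : ∃ M : ℕ, M = H / K := ⟨_, rfl⟩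
  have hM128 : 128 ≤ M := by
    rw [hM, Nat.le_div_iff_mul_le (by omega)]
    exact hH
  have hKM : K * M ≤ H := by
    rw [hM]
    exact Nat.mul_div_le H K
  -- the companions
  have hcomp : ∀ q : ℕ × ℕ, ∃ v : ℤ × ℤ, q ∈ UU p M →
      Comp (1 + (p : ℤ) * q.1, (p : ℤ) * q.2) v := by
    intro q
    by_cases hq : q ∈ UU p M
    · unfold UU at hq
      rw [Finset.mem_filter, Finset.mem_product, Finset.mem_range, Finset.mem_Icc] at hq
      have hcop : IsCoprime (1 + (p : ℤ) * q.1) ((p : ℤ) * q.2) := by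
        have := Nat.isCoprime_iff_coprime.mpr hq.2
        push_cast at this
        exact this
      have hx : 1 ≤ 1 + (p : ℤ) * q.1 := by
        have : 0 ≤ (p : ℤ) * q.1 := by positivity
        linarith
      have hy : 1 ≤ (p : ℤ) * q.2 := by
        have : (1 : ℤ) ≤ q.2 := by exact_mod_cast hq.1.2.1
        nlinarith
      obtain ⟨z, w, h1, h2, h3, h4, h5⟩ := companion hx hy hcop
      exact ⟨(z, w), fun _ => ⟨h1, h2, h3, h4, h5⟩⟩
    · exact ⟨0, fun h => absurd h hq⟩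
  choose V hV using hcomp
  obtain ⟨Uq, hUq⟩ : ∃ Uq : ℕ × ℕ → ℤ × ℤ, Uq = fun q => (1 + (p : ℤ) * q.1, (p : ℤ) * q.2) :=
    ⟨_, rfl⟩
  have hV' : ∀ q ∈ UU p M, Comp (Uq q) (V q) := by
    intro q hq
    rw [hUq]
    exact hV q hq
  have hU1 : ∀ q, 1 ≤ (Uq q).1 := by
    intro q
    rw [hUq]
    have : 0 ≤ (p : ℤ) * q.1 := by positivity
    simp only
    linarith
  have hU2 : ∀ q, 0 ≤ (Uq q).2 := by
    intro q
    rw [hUq]
    simp only
    positivity
  have hUinj : Function.Injective Uq := by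
    intro q q' h
    rw [hUq] at h
    simp only [Prod.mk.injEq] at h
    obtain ⟨h1, h2⟩ := h
    have hp0 : (p : ℤ) ≠ 0 := by linarith
    have e1 : (p : ℤ) * q.1 = p * q'.1 := by linarith
    have e2 := mul_left_cancel₀ hp0 e1
    have e3 := mul_left_cancel₀ hp0 h2
    ext
    · exact_mod_cast e2
    · exact_mod_cast e3
  -- the six maps
  have hcard : (UU p M).card ≤ 6 * (((Finset.Icc (-(H : ℤ)) H ×ˢ Finset.Icc (-(H : ℤ)) H).filter
      (fun q => Good b q)).card) := by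
    apply card_six (E := fun k q => TT a₁ a₂ c₁ c₂ (six_el p (Uq q) (V q) k))
    · intro k q hq q' hq' h
      exact hUinj (six_inj hp (hU1 q) (hU1 q') (hV' q hq) (hV' q' hq') k (TT_inj hd h))
    · intro q hq
      have hcq := hV' q hq
      have hbox : ∀ k, TT a₁ a₂ c₁ c₂ (six_el p (Uq q) (V q) k) ∈
          Finset.Icc (-(H : ℤ)) H ×ˢ Finset.Icc (-(H : ℤ)) H := by
        intro k
        have hq' := hq
        unfold UU at hq'
        rw [Finset.mem_filter, Finset.mem_product, Finset.mem_range, Finset.mem_Icc] at hq'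
        have hL1 : (Uq q).1 ≤ p * M := by
          rw [hUq]
          simp only
          have : (q.1 : ℤ) + 1 ≤ M := by exact_mod_cast hq'.1.1
          nlinarith
        have hL2 : (Uq q).2 ≤ p * M := by
          rw [hUq]
          simp only
          have : (q.2 : ℤ) ≤ M := by exact_mod_cast hq'.1.2.2
          nlinarith
        have h1 := six_bound (by linarith [hU1 q]) (hU2 q) hL1 hL2 hcq hp1 k
        have h2 := TT_bound (a₁ := a₁) (a₂ := a₂) (c₁ := c₁) (c₂ := c₂) h1.1 h1.2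
        have h3 : (|a₁| + |c₁| + |a₂| + |c₂|) * ((2 * (p : ℤ) + 1) * (p * M)) ≤ H := by
          have h4 : (K : ℤ) * M ≤ H := by exact_mod_cast hKM
          rw [hK] at h4
          have h5 : 0 ≤ (M : ℤ) := by positivity
          nlinarith
        rw [Finset.mem_product, Finset.mem_Icc, Finset.mem_Icc]
        exact ⟨abs_le.mp (h2.1.trans h3), abs_le.mp (h2.2.trans h3)⟩
      obtain ⟨⟨x, y⟩, hxy⟩ : ∃ s : ℤ × ℤ, s = Uq q := ⟨_, rfl⟩
      obtain ⟨⟨z, w⟩, hzw⟩ : ∃ s : ℤ × ℤ, s = V q := ⟨_, rfl⟩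
      have hx1 := hU1 q
      have hy1 := hU2 q
      have hpy : (p : ℤ) ∣ (Uq q).2 := by
        rw [hUq]
        exact ⟨q.2, rfl⟩
      rw [← hxy] at hx1 hy1 hpy hcq
      rw [← hzw] at hcq
      simp only at hx1 hy1 hpy
      have hcq' := hcq
      unfold Comp at hcq'
      simp only at hcq'
      obtain ⟨k1, k2, k3, k4, k5⟩ := hcq'
      have hdet : (x * a₁ + y * c₁) * (z * a₂ + w * c₂) -
          (x * a₂ + y * c₂) * (z * a₁ + w * c₁) = 1 := by
        linear_combination (x * w - y * z) * hd + k1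
      have hpz : 0 ≤ (p : ℤ) * z := mul_nonneg (by linarith) (by linarith)
      have hpw : 0 ≤ (p : ℤ) * w := mul_nonneg (by linarith) (by linarith)
      have hpos1 : 0 < Phi b ((x * a₁ + y * c₁) + (z * a₁ + w * c₁))
          ((x * a₂ + y * c₂) + (z * a₂ + w * c₂)) := by
        have h := hPhi (x + z) (y + w) (by linarith) (by linarith) (by linarith)
        have e1 : (x * a₁ + y * c₁) + (z * a₁ + w * c₁) = (x + z) * a₁ + (y + w) * c₁ := by ring
        have e2 : (x * a₂ + y * c₂) + (z * a₂ + w * c₂) = (x + z) * a₂ + (y + w) * c₂ := by ring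
        rw [e1, e2]
        linarith
      have e3 : (x * a₁ + y * c₁) + p * (z * a₁ + w * c₁) =
          (x + p * z) * a₁ + (y + p * w) * c₁ := by ring
      have e4 : (x * a₂ + y * c₂) + p * (z * a₂ + w * c₂) =
          (x + p * z) * a₂ + (y + p * w) * c₂ := by ring
      have hpos2 : 0 < Phi b ((x * a₁ + y * c₁) + p * (z * a₁ + w * c₁))
          ((x * a₂ + y * c₂) + p * (z * a₂ + w * c₂)) := by
        have h := hPhi (x + p * z) (y + p * w) (by linarith) (by linarith) (by linarith)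
        rw [e3, e4]
        linarith
      have hdvd : (p : ℤ) ∣ Phi b ((x * a₁ + y * c₁) + p * (z * a₁ + w * c₁))
          ((x * a₂ + y * c₂) + p * (z * a₂ + w * c₂)) := by
        rw [e3, e4]
        exact dvd_Phi hpP (dvd_add hpy (dvd_mul_right _ _))
      have hsix := six_good hb hp hdet hpos1 hpos2 hdvd
      have hgood : ∃ k, Good b (TT a₁ a₂ c₁ c₂ (six_el p (Uq q) (V q) k)) := by
        rw [← hxy, ← hzw]
        rcases hsix with h | h | h | h | h | h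
        · refine ⟨0, ?_⟩
          convert h using 2 <;> simp only [TT, six_el, Matrix.cons_val_zero] <;> ring
        · refine ⟨1, ?_⟩
          convert h using 2 <;>
            simp only [TT, six_el, Matrix.cons_val_one, Matrix.cons_val_zero] <;> ring
        · refine ⟨2, ?_⟩
          convert h using 2 <;> simp only [TT, six_el, Matrix.cons_val] <;> ring
        · refine ⟨3, ?_⟩
          convert h using 2 <;> simp only [TT, six_el, Matrix.cons_val] <;> ring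
        · exact ⟨4, h⟩
        · refine ⟨5, ?_⟩
          convert h using 2 <;> simp only [TT, six_el, Matrix.cons_val] <;> ring
      obtain ⟨k, hk⟩ := hgood
      exact ⟨k, Finset.mem_filter.mpr ⟨hbox k, hk⟩⟩
  have hU := card_UU (p := p) hM128
  have hcard' : ((UU p M).card : ℝ) ≤ 6 * ((((Finset.Icc (-(H : ℤ)) H ×ˢ
      Finset.Icc (-(H : ℤ)) H).filter (fun q => Good b q)).card : ℕ) : ℝ) := by
    exact_mod_cast hcard
  -- M is at least H / (2 K)
  have hMH : (H : ℝ) ≤ 2 * K * M := by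
    have h1 : H < K * (M + 1) := by
      rw [hM]
      exact Nat.lt_mul_div_succ H (by omega)
    have h2 : H ≤ 2 * K * M := by nlinarith
    exact_mod_cast h2
  have hH0 : (0 : ℝ) ≤ H := by positivity
  have h3 : (H : ℝ) ^ 2 ≤ (2 * K * M) ^ 2 := pow_le_pow_left₀ hH0 hMH 2
  have h4 : 1 / (192 * (K : ℝ) ^ 2) * (H : ℝ) ^ 2 ≤ (M : ℝ) ^ 2 / 48 := by
    rw [div_mul_eq_mul_div, one_mul, div_le_iff₀ (by positivity)]
    nlinarith
  linarith

end

end Pool.Agent.CF
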