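import Pool.Agent.Lib_helper75.CF.Alg

/-!
# Minimal polynomials, good and bad elements
-/

set_option autoImplicit false

namespace Pool.Agent.CF

open Polynomial

section
variable {R : Type*} [CommRing R] {b : Module.Basis (Fin 3) ℤ R}

theorem el_eq_int (hb : b 0 = 1) {x y n : ℤ} (h : el b x y = (n : R)) : x = 0 ∧ y = 0 := by
  have h1 : el b x y = ((0 : ℤ) : R) + (x : R) * b 1 + (y : R) * b 2 := by
    unfold el
    push_cast
    ring
  have h2 : (n : R) = (n : R) + ((0 : ℤ) : R) * b 1 + ((0 : ℤ) : R) * b 2 := by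
    push_cast
    ring
  have h3 := repr_lin1 (b := b) hb 0 x y
  have h4 := repr_lin1 (b := b) hb n 0 0
  have h5 := repr_lin2 (b := b) hb 0 x y
  have h6 := repr_lin2 (b := b) hb n 0 0
  rw [← h1, h, h2, h4] at h3
  rw [← h1, h, h2, h6] at h5
  exact ⟨h3.symm, h5.symm⟩

theorem el_quad {x y A E : ℤ} (hb : b 0 = 1)
    (h : el b x y ^ 2 = (A : R) * el b x y + (E : R)) : Phi b x y = 0 := by
  have h1 : el b x y ^ 2 = (E : R) + ((A * x : ℤ) : R) * b 1 + ((A * y : ℤ) : R) * b 2 := by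
    rw [h]
    unfold el
    push_cast
    ring
  rw [Phi_eq, h1, repr_lin1 hb, repr_lin2 hb]
  ring

theorem Phi_ne [IsDomain R] (hb : b 0 = 1) {x y z w : ℤ} (hd : x * w - y * z = 1) :
    Phi b x y ≠ 0 := by
  intro h0
  obtain ⟨a, e, r, h1, h2⟩ := struct hb hd
  rw [h0] at h1 h2
  have h3 : r ^ 2 - a * r - e = 0 := by simpa using h2
  have h3' : (r : R) ^ 2 - (a : R) * r - (e : R) = 0 := by
    have h4 := congrArg (fun n : ℤ => (n : R)) h3
    push_cast at h4
    exact h4
  have h4 : (el b x y - (r : R)) * (el b x y - ((a - r : ℤ) : R)) = 0 := by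
    push_cast at h1 ⊢
    linear_combination h1 - h3'
  have hxy : ¬(x = 0 ∧ y = 0) := by
    rintro ⟨rfl, rfl⟩
    simp at hd
  rcases mul_eq_zero.mp h4 with h5 | h5
  · exact hxy (el_eq_int hb (sub_eq_zero.mp h5))
  · exact hxy (el_eq_int hb (sub_eq_zero.mp h5))

theorem aeval_charpoly_leftMul (α : R) : aeval α (Algebra.leftMulMatrix b α).charpoly = 0 := by
  apply Algebra.leftMulMatrix_injective b
  rw [← Polynomial.aeval_algHom_apply, Matrix.aeval_self_charpoly, map_zero]

theorem charpoly_eval (α : R) (n : ℤ) :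
    (Algebra.leftMulMatrix b α).charpoly.eval n = Algebra.norm ℤ ((n : R) - α) := by
  rw [Matrix.eval_charpoly, Algebra.norm_eq_matrix_det b, map_sub]
  congr 2
  have h : ((n : ℤ) : R) = algebraMap ℤ R n := by simp
  rw [h, AlgHom.commutes]
  rfl

theorem minpoly_eq [IsDomain R] (hb : b 0 = 1) {x y z w : ℤ} (hd : x * w - y * z = 1) :
    minpoly ℤ (el b x y) = (Algebra.leftMulMatrix b (el b x y)).charpoly := by
  obtain ⟨α, hα⟩ : ∃ α : R, α = el b x y := ⟨_, rfl⟩
  rw [← hα]
  have hmon : (Algebra.leftMulMatrix b α).charpoly.Monic := Matrix.charpoly_monic _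
  have hint : IsIntegral ℤ α := ⟨_, hmon, aeval_charpoly_leftMul α⟩
  have : Module.IsTorsionFree ℤ R := b.isTorsionFree
  have hdvd := minpoly.isIntegrallyClosed_dvd hint (aeval_charpoly_leftMul (b := b) α)
  have hdeg : (Algebra.leftMulMatrix b α).charpoly.natDegree = 3 := by
    rw [Matrix.charpoly_natDegree_eq_dim]
    simp
  symm
  refine Polynomial.eq_of_monic_of_dvd_of_natDegree_le (minpoly.monic hint) hmon hdvd ?_
  rw [hdeg]
  by_contra hlt
  push Not at hlt
  obtain ⟨P, hP⟩ : ∃ P : ℤ[X], P = minpoly ℤ α * X ^ (2 - (minpoly ℤ α).natDegree) := ⟨_, rfl⟩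
  have hPm : P.Monic := by
    rw [hP]
    exact (minpoly.monic hint).mul (monic_X_pow _)
  have hPd : P.natDegree = 2 := by
    rw [hP, (minpoly.monic hint).natDegree_mul (monic_X_pow _), natDegree_X_pow]
    omega
  have hP0 : aeval α P = 0 := by
    rw [hP, map_mul, minpoly.aeval, zero_mul]
  rw [Polynomial.aeval_eq_sum_range, hPd, Finset.sum_range_succ, Finset.sum_range_succ,
    Finset.sum_range_succ, Finset.sum_range_zero] at hP0
  have hc : P.coeff 2 = 1 := by
    have := hPm.coeff_natDegree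
    rwa [hPd] at this
  rw [hc] at hP0
  have h2 : α ^ 2 = ((-(P.coeff 1) : ℤ) : R) * α + ((-(P.coeff 0) : ℤ) : R) := by
    simp only [zsmul_eq_mul, pow_zero, pow_one] at hP0
    push_cast at hP0 ⊢
    linear_combination hP0
  rw [hα] at h2
  exact Phi_ne hb hd (el_quad hb h2)

variable (b)

/-- the pair is good: the minimal polynomial of `x ω + y θ` is a cubic which takes both signs -/
def Good (q : ℤ × ℤ) : Prop :=
  (minpoly ℤ (el b q.1 q.2)).natDegree = 3 ∧ BothSigns (minpoly ℤ (el b q.1 q.2))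

variable {b}

theorem good_or_bad [IsDomain R] (hb : b 0 = 1) {x y z w : ℤ} (hd : x * w - y * z = 1) :
    Good b (x, y) ∨ ∃ s : ℤ, s ≠ 0 ∧ Bad (el b x y) s := by
  by_cases hg : Good b (x, y)
  · exact Or.inl hg
  right
  have hmp := minpoly_eq hb hd
  have hdeg : (minpoly ℤ (el b x y)).natDegree = 3 := by
    rw [hmp, Matrix.charpoly_natDegree_eq_dim]
    simp
  have hnb : ¬ BothSigns (minpoly ℤ (el b x y)) := fun h => hg ⟨hdeg, h⟩
  unfold BothSigns at hnb
  push Not at hnb
  obtain ⟨s, hs, hδ⟩ := hnb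
  have hs0 : -s ≠ 0 := by
    rcases hs with h | h <;> rw [h] <;> norm_num
  refine ⟨-s, hs0, ?_⟩
  intro δ hδ0
  obtain ⟨N₀, hN⟩ := hδ δ hδ0
  refine ⟨N₀, fun N hNN => ?_⟩
  refine lt_of_le_of_lt ?_ (hN N hNN)
  have hcard : (Finset.Icc 1 N).filter (fun n : ℕ =>
      liouville (Algebra.norm ℤ (((n : ℤ) : R) - el b x y)) ≠ -s) =
      (Finset.Icc 1 N).filter (fun n : ℕ =>
        liouville ((minpoly ℤ (el b x y)).eval (n : ℤ)) = s) := by
    apply Finset.filter_congr
    intro n _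
    rw [hmp, charpoly_eval]
    have hne : Algebra.norm ℤ (((n : ℤ) : R) - el b x y) ≠ 0 := by
      intro h0
      rw [Algebra.norm_eq_zero_iff_of_basis b] at h0
      have hxy := el_eq_int hb (sub_eq_zero.mp h0).symm
      rw [hxy.1, hxy.2] at hd
      simp at hd
    rcases liou_ne hne with h | h <;> rcases hs with h' | h' <;> rw [h, h'] <;> norm_num
  rw [hcard]

theorem el_neg (x y : ℤ) : el b (-x) (-y) = -el b x y := by
  unfold el
  push_cast
  ring

/-- one of the six pairs is good -/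
theorem six_good [IsDomain R] (hb : b 0 = 1) {x y z w : ℤ} {p : ℕ} (hp : p.Prime)
    (hd : x * w - y * z = 1)
    (hpos1 : 0 < Phi b (x + z) (y + w)) (hpos2 : 0 < Phi b (x + p * z) (y + p * w))
    (hdvd : (p : ℤ) ∣ Phi b (x + p * z) (y + p * w)) :
    Good b (x + z, y + w) ∨ Good b (-(x + z), -(y + w)) ∨
    Good b (x + p * z, y + p * w) ∨ Good b (-(x + p * z), -(y + p * w)) ∨
    Good b (z, w) ∨ Good b (-x, -y) := by
  have d1 : (x + z) * w - (y + w) * z = 1 := by linear_combination hd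
  have d2 : -(x + z) * (-w) - -(y + w) * (-z) = 1 := by linear_combination hd
  have d3 : (x + p * z) * w - (y + p * w) * z = 1 := by linear_combination hd
  have d4 : -(x + p * z) * (-w) - -(y + p * w) * (-z) = 1 := by linear_combination hd
  have d5 : z * (-y) - w * (-x) = 1 := by linear_combination hd
  have d6 : -x * (-w) - -y * (-z) = 1 := by linear_combination hd
  rcases good_or_bad hb d1 with h | ⟨s₁, -, h1⟩
  · exact Or.inl h
  rcases good_or_bad hb d2 with h | ⟨s₂, -, h2⟩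
  · exact Or.inr (Or.inl h)
  rcases good_or_bad hb d3 with h | ⟨s₃, -, h3⟩
  · exact Or.inr (Or.inr (Or.inl h))
  rcases good_or_bad hb d4 with h | ⟨s₄, -, h4⟩
  · exact Or.inr (Or.inr (Or.inr (Or.inl h)))
  rcases good_or_bad hb d5 with h | ⟨s₅, h50, h5⟩
  · exact Or.inr (Or.inr (Or.inr (Or.inr (Or.inl h))))
  rcases good_or_bad hb d6 with h | ⟨s₆, -, h6⟩
  · exact Or.inr (Or.inr (Or.inr (Or.inr (Or.inr h))))
  rw [el_neg] at h2 h4 h6
  exact absurd (six hb hp hd hpos1 hpos2 hdvd h1 h2 h3 h4 h5 h6 h50) id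

end

end Pool.Agent.CF
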