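import Pool.Agent.Lib_helper75.CF.Good
import Pool.Agent.Lib_helper75.CF.Count

/-!
# Positive proportion
-/

set_option autoImplicit false

namespace Pool.Agent.CF

open Polynomial

/-- the linear change of coordinates -/
def TT (a₁ a₂ c₁ c₂ : ℤ) (s : ℤ × ℤ) : ℤ × ℤ := (s.1 * a₁ + s.2 * c₁, s.1 * a₂ + s.2 * c₂)

theorem TT_inj {a₁ a₂ c₁ c₂ : ℤ} (hd : a₁ * c₂ - a₂ * c₁ = 1) {s t : ℤ × ℤ}
    (h : TT a₁ a₂ c₁ c₂ s = TT a₁ a₂ c₁ c₂ t) : s = t := by
  unfold TT at h
  rw [Prod.mk.injEq] at h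
  obtain ⟨h1, h2⟩ := h
  ext
  · linear_combination c₂ * h1 - c₁ * h2 - (s.1 - t.1) * hd
  · linear_combination a₁ * h2 - a₂ * h1 - (s.2 - t.2) * hd

/-- a cone on which the cubic form is positive -/
theorem cone_pos {A B C D : ℤ} (hA : A ≠ 0) : ∃ a₁ a₂ c₁ c₂ : ℤ, a₁ * c₂ - a₂ * c₁ = 1 ∧
    ∀ x y : ℤ, 0 ≤ x → 0 ≤ y → 1 ≤ x + y →
      2 ≤ A * (x * a₁ + y * c₁) ^ 3 + B * (x * a₁ + y * c₁) ^ 2 * (x * a₂ + y * c₂) +
        C * (x * a₁ + y * c₁) * (x * a₂ + y * c₂) ^ 2 + D * (x * a₂ + y * c₂) ^ 3 := by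
  obtain ⟨S, hS⟩ : ∃ S : ℤ, S = |B| + |C| + |D| := ⟨_, rfl⟩
  have hB0 := abs_nonneg B
  have hC0 := abs_nonneg C
  have hD0 := abs_nonneg D
  have hB1 := neg_abs_le B
  have hC1 := neg_abs_le C
  have hC2 := le_abs_self C
  have hD1 := neg_abs_le D
  have hS0 : 0 ≤ S := by linarith
  -- the estimate
  have key : ∀ A' C' T Y : ℤ, 1 ≤ A' → -|C| ≤ C' → 1 ≤ Y → (S + 2) * Y ≤ T →
      2 ≤ A' * T ^ 3 + B * T ^ 2 * Y + C' * T * Y ^ 2 + D * Y ^ 3 := by
    intro A' C' T Y hA' hC' hY hT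
    have hTY : Y ≤ T := by nlinarith
    have hT1 : 1 ≤ T := by linarith
    have hT2 : 1 ≤ T ^ 2 := by nlinarith
    have e1 : T ^ 3 ≤ A' * T ^ 3 := by
      have : 0 ≤ T ^ 3 := by positivity
      nlinarith
    have hTY2 : 0 ≤ T ^ 2 * Y := by positivity
    have e2 : -|B| * (T ^ 2 * Y) ≤ B * T ^ 2 * Y := by
      have := mul_le_mul_of_nonneg_right hB1 hTY2
      linarith
    have hTY3 : 0 ≤ T * Y ^ 2 := by positivity
    have hTY4 : T * Y ^ 2 ≤ T ^ 2 * Y := by
      have : 0 ≤ T * Y * (T - Y) := mul_nonneg (by positivity) (by linarith)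
      nlinarith
    have e3 : -|C| * (T ^ 2 * Y) ≤ C' * T * Y ^ 2 := by
      have h1 := mul_le_mul_of_nonneg_right hC' hTY3
      have h2 := mul_le_mul_of_nonneg_left hTY4 hC0
      linarith
    have hY3 : 0 ≤ Y ^ 3 := by positivity
    have hY4 : Y ^ 3 ≤ T ^ 2 * Y := by
      have : 0 ≤ Y * (T ^ 2 - Y ^ 2) := mul_nonneg (by linarith) (by nlinarith)
      nlinarith
    have e4 : -|D| * (T ^ 2 * Y) ≤ D * Y ^ 3 := by
      have h1 := mul_le_mul_of_nonneg_right hD1 hY3
      have h2 := mul_le_mul_of_nonneg_left hY4 hD0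
      linarith
    have e5 : 2 ≤ T ^ 2 * (T - S * Y) := by
      have h1 : 2 ≤ T - S * Y := by nlinarith
      nlinarith
    have e6 : T ^ 2 * (T - S * Y) = T ^ 3 - (|B| + |C| + |D|) * (T ^ 2 * Y) := by
      rw [hS]
      ring
    linarith
  rcases lt_or_gt_of_ne hA with hneg | hpos
  · refine ⟨-(S + 2), 1, -(S + 3), 1, by ring, ?_⟩
    intro x y hx hy hxy
    have h := key (-A) (-C) (x * (S + 2) + y * (S + 3)) (x + y) (by omega)
      (by linarith) hxy (by nlinarith)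
    have e : A * (x * -(S + 2) + y * -(S + 3)) ^ 3 +
        B * (x * -(S + 2) + y * -(S + 3)) ^ 2 * (x * 1 + y * 1) +
        C * (x * -(S + 2) + y * -(S + 3)) * (x * 1 + y * 1) ^ 2 + D * (x * 1 + y * 1) ^ 3 =
        -A * (x * (S + 2) + y * (S + 3)) ^ 3 + B * (x * (S + 2) + y * (S + 3)) ^ 2 * (x + y) +
        -C * (x * (S + 2) + y * (S + 3)) * (x + y) ^ 2 + D * (x + y) ^ 3 := by ring
    rw [e]
    exact h
  · refine ⟨S + 3, 1, S + 2, 1, by ring, ?_⟩
    intro x y hx hy hxy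
    have h := key A C (x * (S + 3) + y * (S + 2)) (x + y) (by omega)
      (by linarith) hxy (by nlinarith)
    have e : A * (x * (S + 3) + y * (S + 2)) ^ 3 +
        B * (x * (S + 3) + y * (S + 2)) ^ 2 * (x * 1 + y * 1) +
        C * (x * (S + 3) + y * (S + 2)) * (x * 1 + y * 1) ^ 2 + D * (x * 1 + y * 1) ^ 3 =
        A * (x * (S + 3) + y * (S + 2)) ^ 3 + B * (x * (S + 3) + y * (S + 2)) ^ 2 * (x + y) +
        C * (x * (S + 3) + y * (S + 2)) * (x + y) ^ 2 + D * (x + y) ^ 3 := by ring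
    rw [e]
    exact h

theorem inj_core {x x' y y' Z W s t : ℤ} (hst : Z * s + W * t = 1)
    (h : (x - x') * W = (y - y') * Z) (h1 : x - x' < Z) (h2 : -Z < x - x') (hZ : 0 < Z) :
    x = x' ∧ y = y' := by
  have h3 : x - x' = Z * (s * (x - x') + t * (y - y')) := by
    linear_combination -(x - x') * hst + t * h
  obtain ⟨k, hk⟩ : ∃ k : ℤ, k = s * (x - x') + t * (y - y') := ⟨_, rfl⟩
  rw [← hk] at h3
  have hk0 : k = 0 := by
    have h4 : k < 1 := by
      by_contra hcon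
      push Not at hcon
      nlinarith
    have h5 : -1 < k := by
      by_contra hcon
      push Not at hcon
      nlinarith
    omega
  rw [hk0, mul_zero] at h3
  refine ⟨by linarith, ?_⟩
  rw [h3, zero_mul] at h
  rcases mul_eq_zero.mp h.symm with h6 | h6
  · linarith
  · omega

theorem card_six {ι : Type*} {U : Finset ι} {G : Finset (ℤ × ℤ)}
    {E : Fin 6 → ι → ℤ × ℤ} (hinj : ∀ k, Set.InjOn (E k) U) (hcov : ∀ q ∈ U, ∃ k, E k q ∈ G) :
    U.card ≤ 6 * G.card := by
  classical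
  have h1 : U ⊆ (Finset.univ : Finset (Fin 6)).biUnion (fun k => U.filter (fun q => E k q ∈ G)) := by
    intro q hq
    obtain ⟨k, hk⟩ := hcov q hq
    rw [Finset.mem_biUnion]
    exact ⟨k, Finset.mem_univ k, Finset.mem_filter.mpr ⟨hq, hk⟩⟩
  refine (Finset.card_le_card h1).trans (Finset.card_biUnion_le.trans ?_)
  have h2 : ∀ k ∈ (Finset.univ : Finset (Fin 6)), (U.filter (fun q => E k q ∈ G)).card ≤ G.card := by
    intro k _
    apply Finset.card_le_card_of_injOn (E k)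
    · intro q hq
      rw [Finset.mem_coe, Finset.mem_filter] at hq
      exact hq.2
    · intro q hq q' hq' h
      rw [Finset.mem_coe, Finset.mem_filter] at hq hq'
      exact hinj k hq.1 hq'.1 h
  refine (Finset.sum_le_sum h2).trans ?_
  simp

/-- the six elements -/
def six_el (p : ℕ) (u v : ℤ × ℤ) : Fin 6 → ℤ × ℤ :=
  ![(u.1 + v.1, u.2 + v.2), (-(u.1 + v.1), -(u.2 + v.2)), (u.1 + p * v.1, u.2 + p * v.2),
    (-(u.1 + p * v.1), -(u.2 + p * v.2)), v, (-u.1, -u.2)]

/-- the properties of a companion -/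
def Comp (u v : ℤ × ℤ) : Prop :=
  u.1 * v.2 - u.2 * v.1 = 1 ∧ u.1 ≤ v.1 ∧ v.1 < 2 * u.1 ∧ 1 ≤ v.2 ∧ v.2 ≤ 2 * u.2

theorem six_inj {p : ℕ} (hp : p.Prime) {u v u' v' : ℤ × ℤ} (h1 : 1 ≤ u.1) (h1' : 1 ≤ u'.1)
    (hc : Comp u v) (hc' : Comp u' v') (k : Fin 6) (h : six_el p u v k = six_el p u' v' k) :
    u = u' := by
  obtain ⟨x, y⟩ := u
  obtain ⟨z, w⟩ := v
  obtain ⟨x', y'⟩ := u'
  obtain ⟨z', w'⟩ := v'
  unfold Comp at hc hc'
  simp only at h1 h1' hc hc'
  obtain ⟨a1, a2, a3, -, -⟩ := hc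
  obtain ⟨b1, b2, b3, -, -⟩ := hc'
  have hp0 : (0 : ℤ) < p := by exact_mod_cast hp.pos
  have key : x = x' ∧ y = y' := by
    fin_cases k
    · simp only [six_el, Fin.zero_eta, Matrix.cons_val_zero, Prod.mk.injEq] at h
      obtain ⟨e1, e2⟩ := h
      refine inj_core (Z := x + z) (W := y + w) (s := -y) (t := x) (by linear_combination a1)
        ?_ (by linarith) (by linarith) (by linarith)
      linear_combination a1 - b1 - x' * e2 + y' * e1
    · simp only [six_el, Fin.mk_one, Matrix.cons_val_one, Matrix.cons_val_zero,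
        Prod.mk.injEq] at h
      obtain ⟨e1, e2⟩ := h
      refine inj_core (Z := x + z) (W := y + w) (s := -y) (t := x) (by linear_combination a1)
        ?_ (by linarith) (by linarith) (by linarith)
      linear_combination a1 - b1 + x' * e2 - y' * e1
    · simp only [six_el, Fin.reduceFinMk, Matrix.cons_val, Prod.mk.injEq] at h
      obtain ⟨e1, e2⟩ := h
      have m1 : z ≤ p * z := by nlinarith
      have m2 : z' ≤ p * z' := by nlinarith
      refine inj_core (Z := x + p * z) (W := y + p * w) (s := w) (t := -z)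
        (by linear_combination a1) ?_ (by linarith) (by linarith) (by linarith)
      linear_combination p * a1 - p * b1 - x' * e2 + y' * e1
    · simp only [six_el, Fin.reduceFinMk, Matrix.cons_val, Prod.mk.injEq] at h
      obtain ⟨e1, e2⟩ := h
      have m1 : z ≤ p * z := by nlinarith
      have m2 : z' ≤ p * z' := by nlinarith
      refine inj_core (Z := x + p * z) (W := y + p * w) (s := w) (t := -z)
        (by linear_combination a1) ?_ (by linarith) (by linarith) (by linarith)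
      linear_combination p * a1 - p * b1 + x' * e2 - y' * e1
    · simp only [six_el, Fin.reduceFinMk, Matrix.cons_val, Prod.mk.injEq] at h
      obtain ⟨e1, e2⟩ := h
      refine inj_core (Z := z) (W := w) (s := -y) (t := x) (by linear_combination a1)
        ?_ (by linarith) (by linarith) (by linarith)
      linear_combination a1 - b1 - x' * e2 + y' * e1
    · simp only [six_el, Fin.reduceFinMk, Matrix.cons_val, Prod.mk.injEq] at h
      obtain ⟨e1, e2⟩ := h
      exact ⟨by linarith, by linarith⟩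
  rw [key.1, key.2]

end Pool.Agent.CF
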