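import Pool.Agent.Lib_helper75.CF.Defs

/-!
# The relation between eventual signs
-/

set_option autoImplicit false

namespace Pool.Agent.CF

open Polynomial

variable {R : Type*} [CommRing R]

/-- `λ(N(n - α)) = s` up to `o(√N)` exceptions `n ≤ N` -/
def Bad (α : R) (s : ℤ) : Prop :=
  BadSeq (fun n : ℕ => liouville (Algebra.norm ℤ (((n : ℤ) : R) - α))) s

theorem norm_int (b : Module.Basis (Fin 3) ℤ R) (m : ℤ) : Algebra.norm ℤ ((m : ℤ) : R) = m ^ 3 := by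
  have h := Algebra.norm_algebraMap_of_basis b m
  simpa using h

/-- the values of the quadratic sequence: integers `x_j = r + m j` and `M_j`, all large -/
theorem rel_arith (A E r : ℤ) {m : ℕ} (hm : 0 < m) (hr : (m : ℤ) ∣ r ^ 2 - A * r - E) :
    ∃ C j₀ : ℕ, 1 ≤ C ∧ ∃ X Y Z : ℕ → ℕ,
      (∀ j, j₀ ≤ j → 1 ≤ X j ∧ X j ≤ C * j) ∧ (∀ j, j₀ ≤ j → 1 ≤ Y j ∧ Y j ≤ C * j) ∧
      (∀ j, j₀ ≤ j → 1 ≤ Z j ∧ Z j ≤ C * j ^ 2) ∧
      Set.InjOn X (Set.Ici j₀) ∧ Set.InjOn Y (Set.Ici j₀) ∧ Set.InjOn Z (Set.Ici j₀) ∧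
      ∀ j, j₀ ≤ j → (Y j : ℤ) = (X j : ℤ) - A ∧
        (m : ℤ) * (Z j : ℤ) = (X j : ℤ) ^ 2 - A * (X j : ℤ) - E := by
  obtain ⟨q, hq⟩ := hr
  have hmz : (0 : ℤ) < m := by exact_mod_cast hm
  have hm1 : (1 : ℤ) ≤ m := hmz
  obtain ⟨B, hB⟩ : ∃ B : ℤ, B = |A| + |E| + |r| + |q| + 1 := ⟨_, rfl⟩
  have hA := abs_nonneg A
  have hE := abs_nonneg E
  have hr0 := abs_nonneg r
  have hq0 := abs_nonneg q
  have hB1 : 1 ≤ B := by linarith
  have lA := abs_le.mp (show |A| ≤ B by linarith)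
  have lE := abs_le.mp (show |E| ≤ B by linarith)
  have lr := abs_le.mp (show |r| ≤ B by linarith)
  have lq := abs_le.mp (show |q| ≤ B by linarith)
  -- M_j = m j^2 + (2 r - A) j + q
  have hM : ∀ j : ℤ, (m : ℤ) * (m * j ^ 2 + (2 * r - A) * j + q) =
      (r + m * j) ^ 2 - A * (r + m * j) - E := by
    intro j
    linear_combination -hq
  obtain ⟨j₀, hj0⟩ : ∃ j₀ : ℕ, (j₀ : ℤ) = 8 * B := ⟨(8 * B).toNat, Int.toNat_of_nonneg (by linarith)⟩
  obtain ⟨C, hC⟩ : ∃ C : ℕ, (C : ℤ) = m + 4 * B := ⟨(m + 4 * B).toNat, Int.toNat_of_nonneg (by linarith)⟩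
  have hjB : ∀ j : ℕ, j₀ ≤ j → 8 * B ≤ (j : ℤ) := by
    intro j hj
    rw [← hj0]
    exact_mod_cast hj
  have x1 : ∀ j : ℕ, j₀ ≤ j → 1 ≤ r + m * (j : ℤ) := by
    intro j hj
    have := hjB j hj
    nlinarith
  have y1 : ∀ j : ℕ, j₀ ≤ j → 1 ≤ r + m * (j : ℤ) - A := by
    intro j hj
    have := hjB j hj
    nlinarith
  have z1 : ∀ j : ℕ, j₀ ≤ j → 1 ≤ m * (j : ℤ) ^ 2 + (2 * r - A) * j + q := by
    intro j hj
    have h8 := hjB j hj
    have hj1 : (1 : ℤ) ≤ j := by linarith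
    have h9 : (8 * B) * (j : ℤ) ≤ m * (j : ℤ) ^ 2 := by
      have : (j : ℤ) ^ 2 ≤ m * (j : ℤ) ^ 2 := by nlinarith [sq_nonneg (j : ℤ)]
      nlinarith
    have h10 : -(3 * B) * (j : ℤ) ≤ (2 * r - A) * j := by nlinarith
    nlinarith
  refine ⟨C, j₀, ?_, fun j => (r + m * (j : ℤ)).toNat, fun j => (r + m * (j : ℤ) - A).toNat,
    fun j => (m * (j : ℤ) ^ 2 + (2 * r - A) * j + q).toNat, ?_, ?_, ?_, ?_, ?_, ?_, ?_⟩
  · have : (1 : ℤ) ≤ C := by rw [hC]; linarith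
    exact_mod_cast this
  · intro j hj
    have h1 := x1 j hj
    have h2 : (((r + m * (j : ℤ)).toNat : ℕ) : ℤ) = r + m * (j : ℤ) :=
      Int.toNat_of_nonneg (by linarith)
    have h8 := hjB j hj
    constructor
    · have : (1 : ℤ) ≤ (((r + m * (j : ℤ)).toNat : ℕ) : ℤ) := by rw [h2]; exact h1
      exact_mod_cast this
    · have : (((r + m * (j : ℤ)).toNat : ℕ) : ℤ) ≤ C * (j : ℤ) := by
        rw [h2, hC]
        nlinarith
      exact_mod_cast this
  · intro j hj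
    have h1 := y1 j hj
    have h2 : (((r + m * (j : ℤ) - A).toNat : ℕ) : ℤ) = r + m * (j : ℤ) - A :=
      Int.toNat_of_nonneg (by linarith)
    have h8 := hjB j hj
    constructor
    · have : (1 : ℤ) ≤ (((r + m * (j : ℤ) - A).toNat : ℕ) : ℤ) := by rw [h2]; exact h1
      exact_mod_cast this
    · have : (((r + m * (j : ℤ) - A).toNat : ℕ) : ℤ) ≤ C * (j : ℤ) := by
        rw [h2, hC]
        nlinarith
      exact_mod_cast this
  · intro j hj
    have h1 := z1 j hj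
    have h2 : (((m * (j : ℤ) ^ 2 + (2 * r - A) * j + q).toNat : ℕ) : ℤ) =
        m * (j : ℤ) ^ 2 + (2 * r - A) * j + q := Int.toNat_of_nonneg (by linarith)
    have h8 := hjB j hj
    constructor
    · have : (1 : ℤ) ≤ (((m * (j : ℤ) ^ 2 + (2 * r - A) * j + q).toNat : ℕ) : ℤ) := by
        rw [h2]; exact h1
      exact_mod_cast this
    · have : (((m * (j : ℤ) ^ 2 + (2 * r - A) * j + q).toNat : ℕ) : ℤ) ≤ C * (j : ℤ) ^ 2 := by
        rw [h2, hC]
        have hj1 : (1 : ℤ) ≤ j := by linarith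
        have h9 : (2 * r - A) * (j : ℤ) ≤ 3 * B * j := by nlinarith
        have h10 : (j : ℤ) ≤ (j : ℤ) ^ 2 := by nlinarith
        have h11 : 3 * B * (j : ℤ) ≤ 3 * B * (j : ℤ) ^ 2 := by nlinarith
        have h12 : B ≤ B * (j : ℤ) ^ 2 := by nlinarith
        nlinarith
      exact_mod_cast this
  · intro i hi j hj hij
    have h2 : r + m * (i : ℤ) = r + m * (j : ℤ) := by
      have h3 := congrArg (fun n : ℕ => (n : ℤ)) hij
      simp only at h3
      rwa [Int.toNat_of_nonneg (by linarith [x1 i hi]), Int.toNat_of_nonneg (by linarith [x1 j hj])]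
        at h3
    have h4 : (m : ℤ) * ((i : ℤ) - j) = 0 := by linarith
    rcases mul_eq_zero.mp h4 with h5 | h5
    · omega
    · omega
  · intro i hi j hj hij
    have h2 : r + m * (i : ℤ) - A = r + m * (j : ℤ) - A := by
      have h3 := congrArg (fun n : ℕ => (n : ℤ)) hij
      simp only at h3
      rwa [Int.toNat_of_nonneg (by linarith [y1 i hi]), Int.toNat_of_nonneg (by linarith [y1 j hj])]
        at h3
    have h4 : (m : ℤ) * ((i : ℤ) - j) = 0 := by linarith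
    rcases mul_eq_zero.mp h4 with h5 | h5
    · omega
    · omega
  · intro i hi j hj hij
    have h2 : m * (i : ℤ) ^ 2 + (2 * r - A) * i + q = m * (j : ℤ) ^ 2 + (2 * r - A) * j + q := by
      have h3 := congrArg (fun n : ℕ => (n : ℤ)) hij
      simp only at h3
      rwa [Int.toNat_of_nonneg (by linarith [z1 i hi]), Int.toNat_of_nonneg (by linarith [z1 j hj])]
        at h3
    have h4 : ((i : ℤ) - j) * ((r + m * (i : ℤ)) + (r + m * (j : ℤ) - A)) = 0 := by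
      linear_combination h2
    rcases mul_eq_zero.mp h4 with h5 | h5
    · omega
    · have := x1 i hi
      have := y1 j hj
      omega
  · intro j hj
    have h1 : (((r + m * (j : ℤ)).toNat : ℕ) : ℤ) = r + m * (j : ℤ) :=
      Int.toNat_of_nonneg (by linarith [x1 j hj])
    have h2 : (((r + m * (j : ℤ) - A).toNat : ℕ) : ℤ) = r + m * (j : ℤ) - A :=
      Int.toNat_of_nonneg (by linarith [y1 j hj])
    have h3 : (((m * (j : ℤ) ^ 2 + (2 * r - A) * j + q).toNat : ℕ) : ℤ) =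
        m * (j : ℤ) ^ 2 + (2 * r - A) * j + q := Int.toNat_of_nonneg (by linarith [z1 j hj])
    rw [h1, h2, h3]
    exact ⟨rfl, hM j⟩

/-- the relation between the eventual signs of `g`, `-g` and `t` -/
theorem rel (b : Module.Basis (Fin 3) ℤ R) {g t : R} {A E r : ℤ} {m : ℕ} (hm : 0 < m)
    (h : g ^ 2 = (A : R) * g + (m : R) * t + (E : R)) (hr : (m : ℤ) ∣ r ^ 2 - A * r - E)
    {s₁ s₂ s₃ : ℤ} (h1 : Bad g s₁) (h2 : Bad (-g) s₂) (h3 : Bad t s₃) :
    s₁ * s₂ = liouville m * s₃ := by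
  obtain ⟨C, j₀, hC, X, Y, Z, hX, hY, hZ, iX, iY, iZ, hall⟩ := rel_arith A E r hm hr
  obtain ⟨j, hj, e1, e2, e3⟩ := bad_common h1 h2 h3 hC hX hY hZ iX iY iZ
  obtain ⟨hy, hz⟩ := hall j hj
  have hmne : (m : ℤ) ≠ 0 := by exact_mod_cast hm.ne'
  have key : (((X j : ℤ) : R) - g) * (((Y j : ℤ) : R) - (-g)) =
      ((m : ℤ) : R) * (((Z j : ℤ) : R) - t) := by
    have hz' : ((m : ℤ) : R) * ((Z j : ℤ) : R) =
        ((X j : ℤ) : R) ^ 2 - (A : R) * ((X j : ℤ) : R) - (E : R) := by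
      rw [← Int.cast_mul, hz]
      push_cast
      ring
    rw [hy]
    push_cast at hz' ⊢
    linear_combination -h - hz'
  have hn := congrArg (fun z => liouville (Algebra.norm ℤ z)) key
  simp only [map_mul, liou_mul] at hn
  rw [e1, e2, e3, norm_int b, liou_cube hmne] at hn
  exact hn

end Pool.Agent.CF
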